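import Pool.Agent.Helper75.CR.St2

/-!
# Project CR (MP_265e56_al): module N2
-/

set_option autoImplicit false

namespace Pool.Agent.Helper42.CR

open Pool.Agent.Helper75.CR Helper1.IM

theorem n2_ext (hL2 : StL2) (ρ : FIC) (h : CRW (toP ρ)) (u t : Wd) (hu : u ≠ [])
    (ht : ∀ a ∈ t, a ∈ u) : ∃ r, ρ.r u (u ++ t ++ r) := by
  refine (hL2 Bool SB (toP ρ) h u t hu ?_).1
  intro a ha
  obtain ⟨x, y, hxy⟩ := List.append_of_mem (ht a ha)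
  refine ⟨x, y, ?_⟩
  have h1 : u = x ++ [a] ++ y := by simpa using hxy
  exact (toP ρ).of_eq h1

theorem n2_mem_st {a : Lt} {s : Wd} (h : a ∈ st s) : fl a ∈ s := by
  simp only [st, List.mem_reverse, List.mem_map] at h
  obtain ⟨b, hb, rfl⟩ := h
  rwa [fl_fl]

theorem n2_closed (hL2 : StL2) (hN1 : StN1) (ρ : FIC) (h : CRW (toP ρ)) (hP : PII ρ) (s : Wd)
    (hs : s ≠ []) (hc : ∀ a ∈ s, fl a ∈ s) : ρ.r (st s) s ∧ ρ.r (s ++ s) s := by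
  have h1 : ρ.r s (s ++ st s) := by
    apply hN1 ρ hP s hs
    apply n2_ext hL2 ρ h s (st s) hs
    intro a ha
    have h2 := hc _ (n2_mem_st ha)
    rwa [fl_fl] at h2
  have h3 : ρ.r (st s) (s ++ st s) := by
    have h4 := ρ.star' h1
    rwa [st_append, st_st] at h4
  have h5 : ρ.r (st s) s := ρ.trans' h3 (ρ.symm' h1)
  refine ⟨h5, ?_⟩
  exact ρ.trans' (ρ.mulL s (ρ.symm' h5)) (ρ.symm' h1)

theorem n2_comm (hL2 : StL2) (hN1 : StN1) (ρ : FIC) (h : CRW (toP ρ)) (hP : PII ρ) (s t : Wd)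
    (hs : s ≠ []) (ht : t ≠ []) (hcs : ∀ a ∈ s, fl a ∈ s) (hct : ∀ a ∈ t, fl a ∈ t) :
    ρ.r (t ++ s) (s ++ t) := by
  have h1 := (n2_closed hL2 hN1 ρ h hP (s ++ t) (by simp [hs]) (by
    intro a ha
    rw [List.mem_append] at ha ⊢
    rcases ha with ha | ha
    · exact Or.inl (hcs a ha)
    · exact Or.inr (hct a ha))).1
  rw [st_append] at h1
  have h2 : ρ.r (st t ++ st s) (t ++ s) :=
    ρ.mul2 (n2_closed hL2 hN1 ρ h hP t ht hct).1 (n2_closed hL2 hN1 ρ h hP s hs hcs).1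
  exact ρ.trans' (ρ.symm' h2) h1

theorem n2_half (hL2 : StL2) (hN1 : StN1) (ρ : FIC) (h : CRW (toP ρ)) (hP : PII ρ) (s t : Wd)
    (hs : s ≠ []) (ht : t ≠ []) (hcs : ∀ a ∈ s, fl a ∈ s) (hct : ∀ a ∈ t, fl a ∈ t)
    (hst : ∀ a ∈ t, a ∈ s) : ρ.r (t ++ s) s := by
  obtain ⟨r, hr⟩ := n2_ext hL2 ρ h s t hs hst
  have h1 : ρ.r (t ++ s) (t ++ (s ++ t ++ r)) := ρ.mulL t hr
  have h2 : ρ.r (t ++ (s ++ t ++ r)) (s ++ t ++ (t ++ r)) := by
    have := ρ.mulR (t ++ r) (n2_comm hL2 hN1 ρ h hP s t hs ht hcs hct)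
    simpa only [List.append_assoc] using this
  have h3 : ρ.r (s ++ t ++ (t ++ r)) (s ++ t ++ r) := by
    have := ρ.mul' s r (n2_closed hL2 hN1 ρ h hP t ht hct).2
    simpa only [List.append_assoc] using this
  exact ρ.trans' h1 (ρ.trans' h2 (ρ.trans' h3 (ρ.symm' hr)))

theorem hN2 (hL2 : StL2) (hM1 : Pool.Agent.Helper75.CR.StM1) (hN1 : StN1) : StN2 := by
  intro ρ hC hP s t hs ht hcs hct hst
  have h := (hM1 ρ hC).1
  have h1 := n2_half hL2 hN1 ρ h hP s t hs ht hcs hct (fun a ha => (hst a).2 ha)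
  have h2 := n2_half hL2 hN1 ρ h hP t s ht hs hct hcs (fun a ha => (hst a).1 ha)
  have h3 := n2_comm hL2 hN1 ρ h hP s t hs ht hcs hct
  exact ρ.trans' (ρ.symm' h1) (ρ.trans' h3 h2)

end Pool.Agent.Helper42.CR
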